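import Pool.Agent.helper14.NS.Q30c.PN1

/-!
Generated: certificates.
-/

namespace Pool.Agent.helper14.NS.Q30c

open Pool.Agent.helper31.IA (Z)
open Pool.Agent.helper31.IX (Op XOps runX Cov CovD cov_split covD_split)
open Pool.Agent.helper31.IC (TD)
open Pool.Agent.helper63.RG (reloc)
open Pool.Agent.helper63.NF hiding TD
open Pool.Agent.helper4.NS
open Pool.Agent.helper14.CF (xE covD_E)
open Pool.Agent.helper14.NR (share)

mutual
theorem A1_c0_t5 : CovD 1 gA1 [(30541873152, 6109003776), (824633720832, 274877906944), (137438953472, 137438953472)] :=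
  covD_E kA1_eq (.n 0 (.n 1 (.n 0 (.n 2 (.l 0) (.l 0)) (.n 2 (.l 0) (.l 0))) (.n 2 (.l 0) (.l 0))) (.n 1 (.n 2 (.l 0) (.n 0 (.l 0) (.l 0))) (.n 2 (.l 0) (.l 0))))
    [(30541873152, 6109003776), (824633720832, 274877906944), (137438953472, 137438953472)] rfl (by decide +kernel)
theorem A1_c0_t6 : CovD 1 gA1 [(30541873152, 6109003776), (824633720832, 274877906944), (412316860416, 137438953472)] :=
  covD_E kA1_eq (.n 0 (.n 1 (.n 2 (.l 0) (.l 0)) (.n 2 (.l 0) (.l 0))) (.n 1 (.n 2 (.n 0 (.l 0) (.l 0)) (.l 0)) (.n 2 (.l 0) (.l 0))))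
    [(30541873152, 6109003776), (824633720832, 274877906944), (412316860416, 137438953472)] rfl (by decide +kernel)
end

mutual
theorem A1_c0_t8 : CovD 1 gA1 [(30541873152, 6109003776), (687194767360, 137438953472), (824633720832, 274877906944)] :=
  covD_E kA1_eq (.n 1 (.n 0 (.n 2 (.n 2 (.l 0) (.l 0)) (.n 2 (.l 0) (.l 0))) (.n 2 (.n 2 (.l 0) (.l 0)) (.n 2 (.l 0) (.l 0)))) (.n 2 (.n 2 (.n 0 (.l 0) (.l 0)) (.l 0)) (.n 0 (.n 0 (.l 0) (.l 0)) (.n 0 (.l 0) (.l 0)))))
    [(30541873152, 6109003776), (687194767360, 137438953472), (824633720832, 274877906944)] rfl (by decide +kernel)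
theorem A1_c0_t9 : CovD 1 gA1 [(30541873152, 6109003776), (962072674304, 137438953472), (824633720832, 274877906944)] :=
  covD_E kA1_eq (.n 0 (.n 2 (.n 2 (.l 0) (.l 0)) (.n 1 (.l 0) (.l 0))) (.n 2 (.n 2 (.l 0) (.l 0)) (.n 1 (.l 0) (.l 0))))
    [(30541873152, 6109003776), (962072674304, 137438953472), (824633720832, 274877906944)] rfl (by decide +kernel)
end

mutual
theorem A1_c0_t12 : CovD 1 gA1 [(27487371264, 3054501888), (824633720832, 274877906944), (1374389534720, 274877906944)] :=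
  covD_E kA1_eq (.n 1 (.n 1 (.n 2 (.n 2 (.l 0) (.l 0)) (.n 2 (.l 0) (.l 0))) (.n 2 (.n 2 (.l 0) (.l 0)) (.n 2 (.l 0) (.l 0)))) (.n 2 (.n 2 (.l 0) (.l 0)) (.n 2 (.l 0) (.l 0))))
    [(27487371264, 3054501888), (824633720832, 274877906944), (1374389534720, 274877906944)] rfl (by decide +kernel)
theorem A1_c0_t13 : CovD 1 gA1 [(33596375040, 3054501888), (824633720832, 274877906944), (1374389534720, 274877906944)] :=
  covD_E kA1_eq (.n 1 (.n 1 (.n 2 (.n 2 (.l 0) (.l 0)) (.n 2 (.l 0) (.l 0))) (.n 0 (.n 2 (.l 0) (.l 0)) (.n 2 (.l 0) (.l 0)))) (.n 2 (.n 1 (.l 0) (.l 0)) (.n 2 (.l 0) (.l 0))))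
    [(33596375040, 3054501888), (824633720832, 274877906944), (1374389534720, 274877906944)] rfl (by decide +kernel)
end

mutual
theorem A1_c0_t15 : CovD 1 gA1 [(27487371264, 3054501888), (824633720832, 274877906944), (1924145348608, 274877906944)] :=
  covD_E kA1_eq (.n 1 (.n 0 (.n 2 (.n 2 (.l 0) (.l 0)) (.n 2 (.l 0) (.l 0))) (.n 2 (.n 2 (.l 0) (.l 0)) (.n 2 (.l 0) (.l 0)))) (.n 2 (.n 2 (.l 0) (.n 0 (.l 0) (.l 0))) (.n 0 (.n 2 (.l 0) (.l 0)) (.n 1 (.l 0) (.l 0)))))
    [(27487371264, 3054501888), (824633720832, 274877906944), (1924145348608, 274877906944)] rfl (by decide +kernel)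
theorem A1_c0_t16 : CovD 1 gA1 [(33596375040, 3054501888), (824633720832, 274877906944), (1924145348608, 274877906944)] :=
  covD_E kA1_eq (.n 1 (.n 0 (.n 2 (.n 2 (.l 0) (.l 0)) (.n 2 (.l 0) (.l 0))) (.n 2 (.n 2 (.l 0) (.l 0)) (.n 2 (.l 0) (.l 0)))) (.n 2 (.n 2 (.l 0) (.l 0)) (.n 0 (.n 1 (.l 0) (.l 0)) (.n 1 (.l 0) (.l 0)))))
    [(33596375040, 3054501888), (824633720832, 274877906944), (1924145348608, 274877906944)] rfl (by decide +kernel)
end

mutual
theorem A1_c0_t20 : CovD 1 gA1 [(27487371264, 3054501888), (824633720832, 274877906944), (2473901162496, 274877906944)] :=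
  covD_E kA1_eq (.n 0 (.n 1 (.n 2 (.n 2 (.l 0) (.l 0)) (.n 2 (.l 0) (.l 0))) (.n 2 (.n 2 (.l 0) (.l 0)) (.n 2 (.l 0) (.l 0)))) (.n 1 (.n 2 (.n 2 (.l 0) (.l 0)) (.n 2 (.l 0) (.l 0))) (.n 1 (.n 2 (.l 0) (.l 0)) (.n 2 (.l 0) (.l 0)))))
    [(27487371264, 3054501888), (824633720832, 274877906944), (2473901162496, 274877906944)] rfl (by decide +kernel)
theorem A1_c0_t21 : CovD 1 gA1 [(33596375040, 3054501888), (824633720832, 274877906944), (2473901162496, 274877906944)] :=
  covD_E kA1_eq (.n 1 (.n 2 (.n 0 (.n 2 (.l 0) (.l 0)) (.n 1 (.l 0) (.l 0))) (.n 2 (.l 0) (.l 0))) (.n 2 (.n 0 (.n 1 (.l 0) (.l 0)) (.n 1 (.l 0) (.l 0))) (.n 2 (.l 0) (.l 0))))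
    [(33596375040, 3054501888), (824633720832, 274877906944), (2473901162496, 274877906944)] rfl (by decide +kernel)
end

mutual
theorem A1_c0_t22 : CovD 1 gA1 [(30541873152, 6109003776), (824633720832, 274877906944), (3023656976384, 274877906944)] :=
  covD_E kA1_eq (.n 0 (.n 1 (.n 2 (.n 2 (.n 0 (.l 0) (.l 0)) (.l 0)) (.l 1)) (.n 2 (.n 0 (.n 2 (.l 0) (.l 0)) (.n 1 (.l 0) (.l 0))) (.l 1))) (.n 1 (.n 2 (.n 0 (.l 0) (.l 0)) (.l 1)) (.n 2 (.n 2 (.l 0) (.l 0)) (.l 1))))
    [(30541873152, 6109003776), (824633720832, 274877906944), (3023656976384, 274877906944)] rfl (by decide +kernel)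
theorem A1_c0_t23 : CovD 1 gA1 [(30541873152, 6109003776), (824633720832, 274877906944), (3848290697216, 549755813888)] :=
  covD_E kA1_eq (.n 2 (.n 1 (.l 1) (.l 1)) (.n 0 (.l 1) (.l 1)))
    [(30541873152, 6109003776), (824633720832, 274877906944), (3848290697216, 549755813888)] rfl (by decide +kernel)
end

mutual
theorem A1_c0_t24 : CovD 1 gA1 [(30541873152, 6109003776), (824633720832, 274877906944), (6597069766656, 2199023255552)] :=
  covD_E kA1_eq (.n 2 (.n 2 (.n 2 (.l 1) (.l 1)) (.n 2 (.l 1) (.l 1))) (.n 2 (.n 2 (.l 1) (.l 1)) (.l 1)))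
    [(30541873152, 6109003776), (824633720832, 274877906944), (6597069766656, 2199023255552)] rfl (by decide +kernel)
theorem B1_c0_t8 : CovD 1 gB1 [(27487371264, 3054501888), (584115552256, 34359738368), (4294967296, 4294967296)] :=
  covD_E kB1_eq (.n 2 (.n 2 (.n 2 (.n 2 (.l 1) (.n 0 (.l 1) (.l 1))) (.n 2 (.l 1) (.l 1))) (.n 2 (.n 2 (.l 1) (.l 1)) (.n 0 (.l 1) (.l 1)))) (.n 2 (.n 2 (.n 0 (.l 1) (.l 1)) (.l 1)) (.n 2 (.l 1) (.l 1))))
    [(27487371264, 3054501888), (584115552256, 34359738368), (4294967296, 4294967296)] rfl (by decide +kernel)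
end

mutual
theorem B1_c0_t10 : CovD 1 gB1 [(27487371264, 3054501888), (652835028992, 34359738368), (2147483648, 2147483648)] :=
  covD_E kB1_eq (.n 2 (.n 0 (.n 2 (.n 2 (.l 1) (.l 1)) (.n 2 (.l 1) (.l 1))) (.n 1 (.n 2 (.l 1) (.l 1)) (.n 2 (.l 1) (.l 1)))) (.n 2 (.n 2 (.l 1) (.l 1)) (.n 2 (.l 1) (.l 1))))
    [(27487371264, 3054501888), (652835028992, 34359738368), (2147483648, 2147483648)] rfl (by decide +kernel)
theorem B1_c0_t11 : CovD 1 gB1 [(27487371264, 3054501888), (652835028992, 34359738368), (6442450944, 2147483648)] :=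
  covD_E kB1_eq (.n 2 (.n 0 (.n 2 (.l 1) (.l 1)) (.n 2 (.l 1) (.l 1))) (.n 2 (.l 1) (.l 1)))
    [(27487371264, 3054501888), (652835028992, 34359738368), (6442450944, 2147483648)] rfl (by decide +kernel)
end

mutual
theorem B1_c0_t12 : CovD 1 gB1 [(27487371264, 3054501888), (618475290624, 68719476736), (12884901888, 4294967296)] :=
  covD_E kB1_eq (.n 2 (.n 2 (.n 2 (.n 0 (.l 1) (.l 1)) (.l 1)) (.n 0 (.l 1) (.l 1))) (.n 2 (.l 1) (.l 1)))
    [(27487371264, 3054501888), (618475290624, 68719476736), (12884901888, 4294967296)] rfl (by decide +kernel)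
theorem B1_c0_t16 : CovD 1 gB1 [(27487371264, 3054501888), (721554505728, 34359738368), (2147483648, 2147483648)] :=
  covD_E kB1_eq (.n 2 (.n 0 (.n 2 (.n 2 (.l 1) (.l 1)) (.n 2 (.l 1) (.l 1))) (.n 2 (.n 2 (.l 1) (.l 1)) (.n 2 (.l 1) (.l 1)))) (.n 2 (.n 0 (.n 2 (.l 1) (.l 1)) (.n 0 (.l 1) (.l 1))) (.n 2 (.n 0 (.l 1) (.l 1)) (.l 1))))
    [(27487371264, 3054501888), (721554505728, 34359738368), (2147483648, 2147483648)] rfl (by decide +kernel)
end

mutual
theorem B1_c0_t17 : CovD 1 gB1 [(27487371264, 3054501888), (721554505728, 34359738368), (6442450944, 2147483648)] :=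
  covD_E kB1_eq (.n 2 (.n 0 (.n 2 (.l 1) (.l 1)) (.n 2 (.l 1) (.l 1))) (.n 2 (.l 1) (.l 1)))
    [(27487371264, 3054501888), (721554505728, 34359738368), (6442450944, 2147483648)] rfl (by decide +kernel)
theorem B1_c0_t20 : CovD 1 gB1 [(27487371264, 3054501888), (790273982464, 34359738368), (1073741824, 1073741824)] :=
  covD_E kB1_eq (.n 0 (.n 2 (.n 0 (.n 2 (.l 1) (.l 1)) (.n 2 (.l 1) (.l 1))) (.n 2 (.n 0 (.l 1) (.l 1)) (.l 1))) (.n 2 (.n 2 (.l 1) (.l 1)) (.n 2 (.l 1) (.l 1))))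
    [(27487371264, 3054501888), (790273982464, 34359738368), (1073741824, 1073741824)] rfl (by decide +kernel)
end

mutual
theorem B1_c0_t21 : CovD 1 gB1 [(27487371264, 3054501888), (790273982464, 34359738368), (3221225472, 1073741824)] :=
  covD_E kB1_eq (.n 2 (.n 0 (.n 2 (.l 1) (.l 1)) (.n 2 (.l 1) (.l 1))) (.n 2 (.n 0 (.l 1) (.l 1)) (.l 1)))
    [(27487371264, 3054501888), (790273982464, 34359738368), (3221225472, 1073741824)] rfl (by decide +kernel)
theorem B1_c0_t22 : CovD 1 gB1 [(27487371264, 3054501888), (790273982464, 34359738368), (6442450944, 2147483648)] :=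
  covD_E kB1_eq (.n 2 (.n 0 (.n 2 (.l 1) (.l 1)) (.n 2 (.l 1) (.l 1))) (.n 2 (.l 1) (.l 1)))
    [(27487371264, 3054501888), (790273982464, 34359738368), (6442450944, 2147483648)] rfl (by decide +kernel)
end

mutual
theorem B1_c0_t23 : CovD 1 gB1 [(27487371264, 3054501888), (755914244096, 68719476736), (12884901888, 4294967296)] :=
  covD_E kB1_eq (.n 2 (.n 2 (.n 2 (.n 0 (.l 1) (.l 1)) (.l 1)) (.n 0 (.l 1) (.l 1))) (.n 2 (.n 0 (.l 1) (.l 1)) (.l 1)))
    [(27487371264, 3054501888), (755914244096, 68719476736), (12884901888, 4294967296)] rfl (by decide +kernel)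
theorem B1_c0_t24 : CovD 1 gB1 [(27487371264, 3054501888), (687194767360, 137438953472), (25769803776, 8589934592)] :=
  covD_E kB1_eq (.n 2 (.n 2 (.n 0 (.n 1 (.l 1) (.l 1)) (.n 1 (.l 1) (.l 1))) (.n 2 (.l 1) (.l 1))) (.n 2 (.n 0 (.l 1) (.l 1)) (.l 1)))
    [(27487371264, 3054501888), (687194767360, 137438953472), (25769803776, 8589934592)] rfl (by decide +kernel)
end

mutual
theorem B1_c0_t31 : CovD 1 gB1 [(25960120320, 1527250944), (858993459200, 34359738368), (2147483648, 2147483648)] :=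
  covD_E kB1_eq (.n 2 (.n 1 (.n 2 (.n 2 (.l 1) (.l 1)) (.n 2 (.l 1) (.l 1))) (.n 2 (.n 2 (.l 1) (.l 1)) (.n 2 (.l 1) (.l 1)))) (.n 2 (.n 2 (.l 1) (.l 1)) (.n 1 (.l 1) (.l 1))))
    [(25960120320, 1527250944), (858993459200, 34359738368), (2147483648, 2147483648)] rfl (by decide +kernel)
theorem B1_c0_t32 : CovD 1 gB1 [(25960120320, 1527250944), (927712935936, 34359738368), (2147483648, 2147483648)] :=
  covD_E kB1_eq (.n 2 (.n 2 (.n 2 (.n 2 (.l 1) (.l 1)) (.n 0 (.l 1) (.l 1))) (.n 0 (.n 2 (.l 1) (.l 1)) (.n 2 (.l 1) (.l 1)))) (.n 2 (.n 2 (.l 1) (.l 1)) (.n 2 (.l 1) (.l 1))))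
    [(25960120320, 1527250944), (927712935936, 34359738368), (2147483648, 2147483648)] rfl (by decide +kernel)
end

mutual
theorem B1_c0_t33 : CovD 1 gB1 [(29014622208, 1527250944), (893353197568, 68719476736), (2147483648, 2147483648)] :=
  covD_E kB1_eq (.n 2 (.n 1 (.n 2 (.n 2 (.l 1) (.l 1)) (.n 2 (.l 1) (.l 1))) (.n 2 (.n 0 (.n 2 (.l 1) (.l 1)) (.n 2 (.l 1) (.l 1))) (.n 2 (.l 1) (.l 1)))) (.n 2 (.n 1 (.n 2 (.l 1) (.l 1)) (.n 2 (.l 1) (.l 1))) (.n 2 (.l 1) (.l 1))))
    [(29014622208, 1527250944), (893353197568, 68719476736), (2147483648, 2147483648)] rfl (by decide +kernel)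
theorem B1_c0_t34 : CovD 1 gB1 [(27487371264, 3054501888), (893353197568, 68719476736), (6442450944, 2147483648)] :=
  covD_E kB1_eq (.n 2 (.n 2 (.n 0 (.n 2 (.l 1) (.l 1)) (.n 1 (.l 1) (.l 1))) (.n 2 (.n 0 (.l 1) (.l 1)) (.l 1))) (.n 0 (.n 2 (.l 1) (.l 1)) (.n 2 (.l 1) (.l 1))))
    [(27487371264, 3054501888), (893353197568, 68719476736), (6442450944, 2147483648)] rfl (by decide +kernel)
end

mutual
theorem B1_c0_t35 : CovD 1 gB1 [(27487371264, 3054501888), (893353197568, 68719476736), (12884901888, 4294967296)] :=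
  covD_E kB1_eq (.n 2 (.n 2 (.n 2 (.l 1) (.l 1)) (.n 0 (.l 1) (.l 1))) (.n 2 (.l 1) (.l 1)))
    [(27487371264, 3054501888), (893353197568, 68719476736), (12884901888, 4294967296)] rfl (by decide +kernel)
theorem B1_c0_t40 : CovD 1 gB1 [(25960120320, 1527250944), (1030792151040, 68719476736), (1073741824, 1073741824)] :=
  covD_E kB1_eq (.n 2 (.n 0 (.n 2 (.n 2 (.l 1) (.l 1)) (.n 1 (.l 1) (.l 1))) (.n 1 (.n 2 (.l 1) (.l 1)) (.n 2 (.l 1) (.l 1)))) (.n 2 (.n 0 (.n 1 (.l 1) (.l 1)) (.n 0 (.l 1) (.l 1))) (.n 2 (.l 1) (.l 1))))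
    [(25960120320, 1527250944), (1030792151040, 68719476736), (1073741824, 1073741824)] rfl (by decide +kernel)
end

mutual
theorem B1_c0_t41 : CovD 1 gB1 [(25960120320, 1527250944), (1030792151040, 68719476736), (3221225472, 1073741824)] :=
  covD_E kB1_eq (.n 2 (.n 2 (.n 0 (.l 1) (.l 1)) (.l 1)) (.n 2 (.l 1) (.l 1)))
    [(25960120320, 1527250944), (1030792151040, 68719476736), (3221225472, 1073741824)] rfl (by decide +kernel)
theorem B1_c0_t42 : CovD 1 gB1 [(29014622208, 1527250944), (1030792151040, 68719476736), (2147483648, 2147483648)] :=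
  covD_E kB1_eq (.n 2 (.n 2 (.n 2 (.n 2 (.l 1) (.l 1)) (.n 0 (.l 1) (.l 1))) (.n 0 (.n 2 (.l 1) (.l 1)) (.n 2 (.l 1) (.l 1)))) (.n 2 (.n 2 (.l 1) (.l 1)) (.n 0 (.l 1) (.l 1))))
    [(29014622208, 1527250944), (1030792151040, 68719476736), (2147483648, 2147483648)] rfl (by decide +kernel)
end

mutual
theorem B1_c0_t43 : CovD 1 gB1 [(27487371264, 3054501888), (1030792151040, 68719476736), (6442450944, 2147483648)] :=
  covD_E kB1_eq (.n 2 (.n 0 (.n 2 (.n 0 (.l 1) (.l 1)) (.l 1)) (.n 2 (.n 0 (.l 1) (.l 1)) (.l 1))) (.n 2 (.n 0 (.l 1) (.l 1)) (.l 1)))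
    [(27487371264, 3054501888), (1030792151040, 68719476736), (6442450944, 2147483648)] rfl (by decide +kernel)
theorem B1_c0_t44 : CovD 1 gB1 [(27487371264, 3054501888), (1030792151040, 68719476736), (12884901888, 4294967296)] :=
  covD_E kB1_eq (.n 2 (.n 2 (.n 0 (.l 1) (.l 1)) (.l 1)) (.n 2 (.l 1) (.l 1)))
    [(27487371264, 3054501888), (1030792151040, 68719476736), (12884901888, 4294967296)] rfl (by decide +kernel)
end

mutual
theorem B1_c0_t45 : CovD 1 gB1 [(27487371264, 3054501888), (962072674304, 137438953472), (25769803776, 8589934592)] :=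
  covD_E kB1_eq (.n 2 (.n 2 (.n 2 (.l 1) (.l 1)) (.n 0 (.l 1) (.l 1))) (.n 2 (.l 1) (.l 1)))
    [(27487371264, 3054501888), (962072674304, 137438953472), (25769803776, 8589934592)] rfl (by decide +kernel)
theorem B1_c0_t51 : CovD 1 gB1 [(33596375040, 3054501888), (584115552256, 34359738368), (4294967296, 4294967296)] :=
  covD_E kB1_eq (.n 2 (.n 2 (.n 0 (.n 2 (.l 1) (.l 1)) (.n 2 (.l 1) (.l 1))) (.n 2 (.n 0 (.l 1) (.l 1)) (.l 1))) (.n 2 (.n 2 (.l 1) (.l 1)) (.n 0 (.l 1) (.l 1))))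
    [(33596375040, 3054501888), (584115552256, 34359738368), (4294967296, 4294967296)] rfl (by decide +kernel)
end

mutual
theorem B1_c0_t52 : CovD 1 gB1 [(33596375040, 3054501888), (652835028992, 34359738368), (4294967296, 4294967296)] :=
  covD_E kB1_eq (.n 2 (.n 2 (.n 2 (.n 2 (.l 1) (.l 1)) (.n 0 (.l 1) (.l 1))) (.n 0 (.n 2 (.l 1) (.l 1)) (.n 2 (.l 1) (.l 1)))) (.n 2 (.n 2 (.l 1) (.l 1)) (.n 2 (.l 1) (.l 1))))
    [(33596375040, 3054501888), (652835028992, 34359738368), (4294967296, 4294967296)] rfl (by decide +kernel)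
theorem B1_c0_t53 : CovD 1 gB1 [(33596375040, 3054501888), (618475290624, 68719476736), (12884901888, 4294967296)] :=
  covD_E kB1_eq (.n 2 (.n 2 (.n 2 (.l 1) (.l 1)) (.n 0 (.l 1) (.l 1))) (.n 2 (.l 1) (.l 1)))
    [(33596375040, 3054501888), (618475290624, 68719476736), (12884901888, 4294967296)] rfl (by decide +kernel)
end

mutual
theorem B1_c0_t56 : CovD 1 gB1 [(33596375040, 3054501888), (721554505728, 34359738368), (4294967296, 4294967296)] :=
  covD_E kB1_eq (.n 2 (.n 2 (.n 2 (.n 2 (.l 1) (.l 1)) (.n 2 (.l 1) (.l 1))) (.n 0 (.n 2 (.l 1) (.l 1)) (.n 2 (.l 1) (.l 1)))) (.n 2 (.n 2 (.n 0 (.l 1) (.l 1)) (.l 1)) (.n 2 (.l 1) (.l 1))))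
    [(33596375040, 3054501888), (721554505728, 34359738368), (4294967296, 4294967296)] rfl (by decide +kernel)
theorem B1_c0_t58 : CovD 1 gB1 [(33596375040, 3054501888), (790273982464, 34359738368), (2147483648, 2147483648)] :=
  covD_E kB1_eq (.n 2 (.n 0 (.n 2 (.n 2 (.l 1) (.l 1)) (.n 2 (.l 1) (.l 1))) (.n 0 (.n 2 (.l 1) (.l 1)) (.n 2 (.l 1) (.l 1)))) (.n 2 (.n 2 (.l 1) (.l 1)) (.n 0 (.l 1) (.l 1))))
    [(33596375040, 3054501888), (790273982464, 34359738368), (2147483648, 2147483648)] rfl (by decide +kernel)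
end

mutual
theorem B1_c0_t59 : CovD 1 gB1 [(33596375040, 3054501888), (790273982464, 34359738368), (6442450944, 2147483648)] :=
  covD_E kB1_eq (.n 2 (.n 2 (.n 0 (.l 1) (.l 1)) (.l 1)) (.n 2 (.l 1) (.l 1)))
    [(33596375040, 3054501888), (790273982464, 34359738368), (6442450944, 2147483648)] rfl (by decide +kernel)
theorem B1_c0_t60 : CovD 1 gB1 [(33596375040, 3054501888), (755914244096, 68719476736), (12884901888, 4294967296)] :=
  covD_E kB1_eq (.n 2 (.n 2 (.n 2 (.l 1) (.l 1)) (.n 0 (.l 1) (.l 1))) (.n 2 (.l 1) (.l 1)))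
    [(33596375040, 3054501888), (755914244096, 68719476736), (12884901888, 4294967296)] rfl (by decide +kernel)
end

mutual
theorem B1_c0_t61 : CovD 1 gB1 [(33596375040, 3054501888), (687194767360, 137438953472), (25769803776, 8589934592)] :=
  covD_E kB1_eq (.n 2 (.n 2 (.n 2 (.n 0 (.l 1) (.l 1)) (.l 1)) (.n 1 (.l 1) (.l 1))) (.n 2 (.n 0 (.l 1) (.l 1)) (.l 1)))
    [(33596375040, 3054501888), (687194767360, 137438953472), (25769803776, 8589934592)] rfl (by decide +kernel)
theorem B1_c0_t67 : CovD 1 gB1 [(32069124096, 1527250944), (893353197568, 68719476736), (2147483648, 2147483648)] :=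
  covD_E kB1_eq (.n 1 (.n 2 (.n 2 (.n 2 (.l 1) (.l 1)) (.n 2 (.l 1) (.l 1))) (.n 2 (.n 0 (.l 1) (.l 1)) (.l 1))) (.n 2 (.n 2 (.n 2 (.l 1) (.l 1)) (.n 2 (.l 1) (.l 1))) (.n 2 (.n 0 (.l 1) (.l 1)) (.l 1))))
    [(32069124096, 1527250944), (893353197568, 68719476736), (2147483648, 2147483648)] rfl (by decide +kernel)
end

mutual
theorem B1_c0_t68 : CovD 1 gB1 [(35123625984, 1527250944), (893353197568, 68719476736), (2147483648, 2147483648)] :=
  covD_E kB1_eq (.n 2 (.n 2 (.n 0 (.n 2 (.l 1) (.l 1)) (.n 1 (.l 1) (.l 1))) (.n 2 (.l 1) (.l 1))) (.n 1 (.n 2 (.l 1) (.l 1)) (.n 2 (.l 1) (.l 1))))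
    [(35123625984, 1527250944), (893353197568, 68719476736), (2147483648, 2147483648)] rfl (by decide +kernel)
theorem B1_c0_t69 : CovD 1 gB1 [(33596375040, 3054501888), (893353197568, 68719476736), (6442450944, 2147483648)] :=
  covD_E kB1_eq (.n 2 (.n 0 (.n 2 (.n 0 (.l 1) (.l 1)) (.l 1)) (.n 2 (.l 1) (.l 1))) (.n 2 (.n 0 (.l 1) (.l 1)) (.l 1)))
    [(33596375040, 3054501888), (893353197568, 68719476736), (6442450944, 2147483648)] rfl (by decide +kernel)
end

mutual
theorem B1_c0_t71 : CovD 1 gB1 [(33596375040, 3054501888), (1030792151040, 68719476736), (2147483648, 2147483648)] :=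
  covD_E kB1_eq (.n 0 (.n 2 (.n 2 (.n 2 (.l 1) (.l 1)) (.n 2 (.l 1) (.l 1))) (.n 2 (.n 2 (.l 1) (.l 1)) (.l 1))) (.n 2 (.n 2 (.n 2 (.l 1) (.l 1)) (.n 0 (.l 1) (.l 1))) (.n 2 (.n 0 (.l 1) (.l 1)) (.l 1))))
    [(33596375040, 3054501888), (1030792151040, 68719476736), (2147483648, 2147483648)] rfl (by decide +kernel)
theorem B1_c0_t72 : CovD 1 gB1 [(33596375040, 3054501888), (1030792151040, 68719476736), (6442450944, 2147483648)] :=
  covD_E kB1_eq (.n 2 (.n 0 (.n 2 (.l 1) (.l 1)) (.n 2 (.l 1) (.l 1))) (.n 2 (.l 1) (.l 1)))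
    [(33596375040, 3054501888), (1030792151040, 68719476736), (6442450944, 2147483648)] rfl (by decide +kernel)
end

mutual
theorem B1_c0_t73 : CovD 1 gB1 [(33596375040, 3054501888), (962072674304, 137438953472), (12884901888, 4294967296)] :=
  covD_E kB1_eq (.n 2 (.n 1 (.n 2 (.n 0 (.l 1) (.l 1)) (.l 1)) (.n 2 (.n 0 (.l 1) (.l 1)) (.l 1))) (.n 2 (.n 0 (.l 1) (.l 1)) (.l 1)))
    [(33596375040, 3054501888), (962072674304, 137438953472), (12884901888, 4294967296)] rfl (by decide +kernel)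
theorem B1_c0_t74 : CovD 1 gB1 [(33596375040, 3054501888), (962072674304, 137438953472), (25769803776, 8589934592)] :=
  covD_E kB1_eq (.n 2 (.n 2 (.n 2 (.l 1) (.l 1)) (.n 0 (.l 1) (.l 1))) (.n 2 (.l 1) (.l 1)))
    [(33596375040, 3054501888), (962072674304, 137438953472), (25769803776, 8589934592)] rfl (by decide +kernel)
end

mutual
theorem B1_c0_t76 : CovD 1 gB1 [(30541873152, 6109003776), (824633720832, 274877906944), (42949672960, 8589934592)] :=
  covD_E kB1_eq (.n 2 (.n 1 (.n 0 (.n 2 (.l 1) (.l 1)) (.n 2 (.l 1) (.l 1))) (.n 2 (.n 0 (.l 1) (.l 1)) (.l 1))) (.n 0 (.n 2 (.l 1) (.l 1)) (.n 1 (.l 1) (.l 1))))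
    [(30541873152, 6109003776), (824633720832, 274877906944), (42949672960, 8589934592)] rfl (by decide +kernel)
theorem B1_c0_t77 : CovD 1 gB1 [(30541873152, 6109003776), (824633720832, 274877906944), (60129542144, 8589934592)] :=
  covD_E kB1_eq (.n 0 (.n 2 (.n 0 (.l 1) (.l 1)) (.l 1)) (.n 2 (.n 0 (.l 1) (.l 1)) (.l 1)))
    [(30541873152, 6109003776), (824633720832, 274877906944), (60129542144, 8589934592)] rfl (by decide +kernel)
end

mutual
theorem B1_c0_t78 : CovD 1 gB1 [(30541873152, 6109003776), (824633720832, 274877906944), (103079215104, 34359738368)] :=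
  covD_E kB1_eq (.n 0 (.n 2 (.n 2 (.n 2 (.l 1) (.l 1)) (.l 1)) (.n 2 (.l 1) (.l 1))) (.n 2 (.n 2 (.n 2 (.l 1) (.l 1)) (.l 1)) (.n 2 (.l 1) (.l 1))))
    [(30541873152, 6109003776), (824633720832, 274877906944), (103079215104, 34359738368)] rfl (by decide +kernel)
theorem D1_c0 : CovD 1 gD1 [(30541873152, 6109003776), (824633720832, 274877906944), (863610339328, 863610339328)] :=
  covD_E kD1_eq (.n 1 (.n 2 (.n 1 (.n 2 (.l 0) (.l 0)) (.n 2 (.l 0) (.l 0))) (.n 2 (.n 1 (.l 0) (.l 0)) (.n 2 (.l 0) (.l 0)))) (.n 2 (.n 1 (.n 2 (.l 0) (.l 0)) (.n 2 (.l 0) (.l 0))) (.n 2 (.n 1 (.l 0) (.l 0)) (.n 2 (.l 0) (.l 0)))))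
    [(30541873152, 6109003776), (824633720832, 274877906944), (863610339328, 863610339328)] rfl (by decide +kernel)
end

mutual
theorem E1_c0_t1 : CovD 1 gE1 [(30541873152, 6109003776), (687194767360, 137438953472), (863610339328, 863610339328)] :=
  covD_E kE1_eq (.n 2 (.n 2 (.n 0 (.n 2 (.n 2 (.n 0 (.l 0) (.l 0)) (.l 0)) (.l 0)) (.n 2 (.n 2 (.l 0) (.l 0)) (.l 0))) (.n 2 (.n 0 (.l 0) (.l 0)) (.l 0))) (.n 2 (.n 2 (.l 0) (.l 0)) (.n 2 (.l 0) (.l 0))))
    [(30541873152, 6109003776), (687194767360, 137438953472), (863610339328, 863610339328)] rfl (by decide +kernel)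
theorem E1_c0_t2 : CovD 1 gE1 [(30541873152, 6109003776), (962072674304, 137438953472), (863610339328, 863610339328)] :=
  covD_E kE1_eq (.n 2 (.n 2 (.n 2 (.n 0 (.n 2 (.n 0 (.l 0) (.l 0)) (.l 0)) (.n 2 (.l 0) (.l 0))) (.n 2 (.l 0) (.l 0))) (.n 2 (.n 0 (.l 0) (.l 0)) (.l 0))) (.n 2 (.n 2 (.l 0) (.l 0)) (.n 2 (.l 0) (.l 0))))
    [(30541873152, 6109003776), (962072674304, 137438953472), (863610339328, 863610339328)] rfl (by decide +kernel)
end

theorem A1_c0_t4 : CovD 1 gA1 [(30541873152, 6109003776), (824633720832, 274877906944), (274877906944, 274877906944)] :=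
  covD_split 2 (by decide +kernel) A1_c0_t5 A1_c0_t6

theorem A1_c0_t7 : CovD 1 gA1 [(30541873152, 6109003776), (824633720832, 274877906944), (824633720832, 274877906944)] :=
  covD_split 1 (by decide +kernel) A1_c0_t8 A1_c0_t9

theorem A1_c0_t3 : CovD 1 gA1 [(30541873152, 6109003776), (824633720832, 274877906944), (549755813888, 549755813888)] :=
  covD_split 2 (by decide +kernel) A1_c0_t4 A1_c0_t7

theorem A1_c0_t11 : CovD 1 gA1 [(30541873152, 6109003776), (824633720832, 274877906944), (1374389534720, 274877906944)] :=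
  covD_split 0 (by decide +kernel) A1_c0_t12 A1_c0_t13

theorem A1_c0_t14 : CovD 1 gA1 [(30541873152, 6109003776), (824633720832, 274877906944), (1924145348608, 274877906944)] :=
  covD_split 0 (by decide +kernel) A1_c0_t15 A1_c0_t16

theorem A1_c0_t10 : CovD 1 gA1 [(30541873152, 6109003776), (824633720832, 274877906944), (1649267441664, 549755813888)] :=
  covD_split 2 (by decide +kernel) A1_c0_t11 A1_c0_t14

theorem A1_c0_t2 : CovD 1 gA1 [(30541873152, 6109003776), (824633720832, 274877906944), (1099511627776, 1099511627776)] :=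
  covD_split 2 (by decide +kernel) A1_c0_t3 A1_c0_t10

theorem A1_c0_t19 : CovD 1 gA1 [(30541873152, 6109003776), (824633720832, 274877906944), (2473901162496, 274877906944)] :=
  covD_split 0 (by decide +kernel) A1_c0_t20 A1_c0_t21

theorem A1_c0_t18 : CovD 1 gA1 [(30541873152, 6109003776), (824633720832, 274877906944), (2748779069440, 549755813888)] :=
  covD_split 2 (by decide +kernel) A1_c0_t19 A1_c0_t22

theorem A1_c0_t17 : CovD 1 gA1 [(30541873152, 6109003776), (824633720832, 274877906944), (3298534883328, 1099511627776)] :=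
  covD_split 2 (by decide +kernel) A1_c0_t18 A1_c0_t23

theorem A1_c0_t1 : CovD 1 gA1 [(30541873152, 6109003776), (824633720832, 274877906944), (2199023255552, 2199023255552)] :=
  covD_split 2 (by decide +kernel) A1_c0_t2 A1_c0_t17

theorem A1_c0 : CovD 1 gA1 [(30541873152, 6109003776), (824633720832, 274877906944), (4398046511104, 4398046511104)] :=
  covD_split 2 (by decide +kernel) A1_c0_t1 A1_c0_t24

theorem B1_c0_t9 : CovD 1 gB1 [(27487371264, 3054501888), (652835028992, 34359738368), (4294967296, 4294967296)] :=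
  covD_split 2 (by decide +kernel) B1_c0_t10 B1_c0_t11

theorem B1_c0_t7 : CovD 1 gB1 [(27487371264, 3054501888), (618475290624, 68719476736), (4294967296, 4294967296)] :=
  covD_split 1 (by decide +kernel) B1_c0_t8 B1_c0_t9

theorem B1_c0_t6 : CovD 1 gB1 [(27487371264, 3054501888), (618475290624, 68719476736), (8589934592, 8589934592)] :=
  covD_split 2 (by decide +kernel) B1_c0_t7 B1_c0_t12

theorem B1_c0_t15 : CovD 1 gB1 [(27487371264, 3054501888), (721554505728, 34359738368), (4294967296, 4294967296)] :=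
  covD_split 2 (by decide +kernel) B1_c0_t16 B1_c0_t17

theorem B1_c0_t19 : CovD 1 gB1 [(27487371264, 3054501888), (790273982464, 34359738368), (2147483648, 2147483648)] :=
  covD_split 2 (by decide +kernel) B1_c0_t20 B1_c0_t21

theorem B1_c0_t18 : CovD 1 gB1 [(27487371264, 3054501888), (790273982464, 34359738368), (4294967296, 4294967296)] :=
  covD_split 2 (by decide +kernel) B1_c0_t19 B1_c0_t22

theorem B1_c0_t14 : CovD 1 gB1 [(27487371264, 3054501888), (755914244096, 68719476736), (4294967296, 4294967296)] :=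
  covD_split 1 (by decide +kernel) B1_c0_t15 B1_c0_t18

theorem B1_c0_t13 : CovD 1 gB1 [(27487371264, 3054501888), (755914244096, 68719476736), (8589934592, 8589934592)] :=
  covD_split 2 (by decide +kernel) B1_c0_t14 B1_c0_t23

theorem B1_c0_t5 : CovD 1 gB1 [(27487371264, 3054501888), (687194767360, 137438953472), (8589934592, 8589934592)] :=
  covD_split 1 (by decide +kernel) B1_c0_t6 B1_c0_t13

theorem B1_c0_t4 : CovD 1 gB1 [(27487371264, 3054501888), (687194767360, 137438953472), (17179869184, 17179869184)] :=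
  covD_split 2 (by decide +kernel) B1_c0_t5 B1_c0_t24

theorem B1_c0_t30 : CovD 1 gB1 [(25960120320, 1527250944), (893353197568, 68719476736), (2147483648, 2147483648)] :=
  covD_split 1 (by decide +kernel) B1_c0_t31 B1_c0_t32

theorem B1_c0_t29 : CovD 1 gB1 [(27487371264, 3054501888), (893353197568, 68719476736), (2147483648, 2147483648)] :=
  covD_split 0 (by decide +kernel) B1_c0_t30 B1_c0_t33

theorem B1_c0_t28 : CovD 1 gB1 [(27487371264, 3054501888), (893353197568, 68719476736), (4294967296, 4294967296)] :=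
  covD_split 2 (by decide +kernel) B1_c0_t29 B1_c0_t34

theorem B1_c0_t27 : CovD 1 gB1 [(27487371264, 3054501888), (893353197568, 68719476736), (8589934592, 8589934592)] :=
  covD_split 2 (by decide +kernel) B1_c0_t28 B1_c0_t35

theorem B1_c0_t39 : CovD 1 gB1 [(25960120320, 1527250944), (1030792151040, 68719476736), (2147483648, 2147483648)] :=
  covD_split 2 (by decide +kernel) B1_c0_t40 B1_c0_t41

theorem B1_c0_t38 : CovD 1 gB1 [(27487371264, 3054501888), (1030792151040, 68719476736), (2147483648, 2147483648)] :=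
  covD_split 0 (by decide +kernel) B1_c0_t39 B1_c0_t42

theorem B1_c0_t37 : CovD 1 gB1 [(27487371264, 3054501888), (1030792151040, 68719476736), (4294967296, 4294967296)] :=
  covD_split 2 (by decide +kernel) B1_c0_t38 B1_c0_t43

theorem B1_c0_t36 : CovD 1 gB1 [(27487371264, 3054501888), (1030792151040, 68719476736), (8589934592, 8589934592)] :=
  covD_split 2 (by decide +kernel) B1_c0_t37 B1_c0_t44

theorem B1_c0_t26 : CovD 1 gB1 [(27487371264, 3054501888), (962072674304, 137438953472), (8589934592, 8589934592)] :=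
  covD_split 1 (by decide +kernel) B1_c0_t27 B1_c0_t36

theorem B1_c0_t25 : CovD 1 gB1 [(27487371264, 3054501888), (962072674304, 137438953472), (17179869184, 17179869184)] :=
  covD_split 2 (by decide +kernel) B1_c0_t26 B1_c0_t45

theorem B1_c0_t3 : CovD 1 gB1 [(27487371264, 3054501888), (824633720832, 274877906944), (17179869184, 17179869184)] :=
  covD_split 1 (by decide +kernel) B1_c0_t4 B1_c0_t25

theorem B1_c0_t50 : CovD 1 gB1 [(33596375040, 3054501888), (618475290624, 68719476736), (4294967296, 4294967296)] :=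
  covD_split 1 (by decide +kernel) B1_c0_t51 B1_c0_t52

theorem B1_c0_t49 : CovD 1 gB1 [(33596375040, 3054501888), (618475290624, 68719476736), (8589934592, 8589934592)] :=
  covD_split 2 (by decide +kernel) B1_c0_t50 B1_c0_t53

theorem B1_c0_t57 : CovD 1 gB1 [(33596375040, 3054501888), (790273982464, 34359738368), (4294967296, 4294967296)] :=
  covD_split 2 (by decide +kernel) B1_c0_t58 B1_c0_t59

theorem B1_c0_t55 : CovD 1 gB1 [(33596375040, 3054501888), (755914244096, 68719476736), (4294967296, 4294967296)] :=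
  covD_split 1 (by decide +kernel) B1_c0_t56 B1_c0_t57

theorem B1_c0_t54 : CovD 1 gB1 [(33596375040, 3054501888), (755914244096, 68719476736), (8589934592, 8589934592)] :=
  covD_split 2 (by decide +kernel) B1_c0_t55 B1_c0_t60

theorem B1_c0_t48 : CovD 1 gB1 [(33596375040, 3054501888), (687194767360, 137438953472), (8589934592, 8589934592)] :=
  covD_split 1 (by decide +kernel) B1_c0_t49 B1_c0_t54

theorem B1_c0_t47 : CovD 1 gB1 [(33596375040, 3054501888), (687194767360, 137438953472), (17179869184, 17179869184)] :=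
  covD_split 2 (by decide +kernel) B1_c0_t48 B1_c0_t61

theorem B1_c0_t66 : CovD 1 gB1 [(33596375040, 3054501888), (893353197568, 68719476736), (2147483648, 2147483648)] :=
  covD_split 0 (by decide +kernel) B1_c0_t67 B1_c0_t68

theorem B1_c0_t65 : CovD 1 gB1 [(33596375040, 3054501888), (893353197568, 68719476736), (4294967296, 4294967296)] :=
  covD_split 2 (by decide +kernel) B1_c0_t66 B1_c0_t69

theorem B1_c0_t70 : CovD 1 gB1 [(33596375040, 3054501888), (1030792151040, 68719476736), (4294967296, 4294967296)] :=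
  covD_split 2 (by decide +kernel) B1_c0_t71 B1_c0_t72

theorem B1_c0_t64 : CovD 1 gB1 [(33596375040, 3054501888), (962072674304, 137438953472), (4294967296, 4294967296)] :=
  covD_split 1 (by decide +kernel) B1_c0_t65 B1_c0_t70

theorem B1_c0_t63 : CovD 1 gB1 [(33596375040, 3054501888), (962072674304, 137438953472), (8589934592, 8589934592)] :=
  covD_split 2 (by decide +kernel) B1_c0_t64 B1_c0_t73

theorem B1_c0_t62 : CovD 1 gB1 [(33596375040, 3054501888), (962072674304, 137438953472), (17179869184, 17179869184)] :=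
  covD_split 2 (by decide +kernel) B1_c0_t63 B1_c0_t74

theorem B1_c0_t46 : CovD 1 gB1 [(33596375040, 3054501888), (824633720832, 274877906944), (17179869184, 17179869184)] :=
  covD_split 1 (by decide +kernel) B1_c0_t47 B1_c0_t62

theorem B1_c0_t2 : CovD 1 gB1 [(30541873152, 6109003776), (824633720832, 274877906944), (17179869184, 17179869184)] :=
  covD_split 0 (by decide +kernel) B1_c0_t3 B1_c0_t46

theorem B1_c0_t75 : CovD 1 gB1 [(30541873152, 6109003776), (824633720832, 274877906944), (51539607552, 17179869184)] :=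
  covD_split 2 (by decide +kernel) B1_c0_t76 B1_c0_t77

theorem B1_c0_t1 : CovD 1 gB1 [(30541873152, 6109003776), (824633720832, 274877906944), (34359738368, 34359738368)] :=
  covD_split 2 (by decide +kernel) B1_c0_t2 B1_c0_t75

theorem B1_c0 : CovD 1 gB1 [(30541873152, 6109003776), (824633720832, 274877906944), (68719476736, 68719476736)] :=
  covD_split 2 (by decide +kernel) B1_c0_t1 B1_c0_t78

theorem E1_c0 : CovD 1 gE1 [(30541873152, 6109003776), (824633720832, 274877906944), (863610339328, 863610339328)] :=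
  covD_split 1 (by decide +kernel) E1_c0_t1 E1_c0_t2

end Pool.Agent.helper14.NS.Q30c
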