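import Pool.Agent.helper14.NS.Q30c.PZ

/-!
Generated: certificates.
-/

namespace Pool.Agent.helper14.NS.Q30c

open Pool.Agent.helper31.IA (Z)
open Pool.Agent.helper31.IX (Op XOps runX Cov CovD cov_split covD_split)
open Pool.Agent.helper31.IC (TD)
open Pool.Agent.helper63.RG (reloc)
open Pool.Agent.helper63.NF hiding TD
open Pool.Agent.helper4.NS
open Pool.Agent.helper14.CF (xE covD_E)
open Pool.Agent.helper14.NR (share)

mutual
theorem Z_c0_t3 : CovD 1 gZ [(30541873152, 6109003776), (618475290624, 68719476736), (219915747328, 219915747328)] :=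
  covD_E kZ_eq (.n 2 (.n 2 (.n 2 (.n 2 (.l 0) (.l 0)) (.n 2 (.l 0) (.l 0))) (.n 0 (.n 2 (.l 0) (.l 0)) (.n 2 (.l 0) (.l 0)))) (.n 0 (.n 2 (.n 2 (.l 0) (.l 0)) (.n 2 (.l 0) (.l 0))) (.n 2 (.n 2 (.l 0) (.l 0)) (.n 2 (.l 0) (.l 0)))))
    [(30541873152, 6109003776), (618475290624, 68719476736), (219915747328, 219915747328)] rfl (by decide +kernel)
theorem Z_c0_t4 : CovD 1 gZ [(30541873152, 6109003776), (618475290624, 68719476736), (659747241984, 219915747328)] :=
  covD_E kZ_eq (.n 0 (.n 2 (.n 2 (.n 2 (.l 0) (.l 0)) (.n 2 (.l 0) (.l 0))) (.n 2 (.n 2 (.l 0) (.l 0)) (.n 2 (.l 0) (.l 0)))) (.n 2 (.n 2 (.n 2 (.l 0) (.l 0)) (.n 2 (.l 0) (.l 0))) (.n 2 (.n 2 (.l 0) (.l 0)) (.n 2 (.l 0) (.l 0)))))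
    [(30541873152, 6109003776), (618475290624, 68719476736), (659747241984, 219915747328)] rfl (by decide +kernel)
end

mutual
theorem Z_c0_t6 : CovD 1 gZ [(30541873152, 6109003776), (755914244096, 68719476736), (219915747328, 219915747328)] :=
  covD_E kZ_eq (.n 2 (.n 0 (.n 2 (.n 2 (.l 0) (.l 0)) (.n 2 (.l 0) (.l 0))) (.n 2 (.n 2 (.l 0) (.l 0)) (.n 2 (.l 0) (.l 0)))) (.n 2 (.n 2 (.l 0) (.l 0)) (.n 2 (.l 0) (.l 0))))
    [(30541873152, 6109003776), (755914244096, 68719476736), (219915747328, 219915747328)] rfl (by decide +kernel)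
theorem Z_c0_t7 : CovD 1 gZ [(30541873152, 6109003776), (755914244096, 68719476736), (659747241984, 219915747328)] :=
  covD_E kZ_eq (.n 2 (.n 2 (.n 2 (.l 0) (.n 0 (.l 0) (.l 0))) (.n 0 (.n 0 (.l 0) (.l 0)) (.n 0 (.l 0) (.l 0)))) (.n 0 (.n 2 (.n 2 (.l 0) (.l 0)) (.n 2 (.l 0) (.l 0))) (.n 2 (.n 2 (.l 0) (.l 0)) (.n 2 (.l 0) (.l 0)))))
    [(30541873152, 6109003776), (755914244096, 68719476736), (659747241984, 219915747328)] rfl (by decide +kernel)
end

mutual
theorem Z_c0_t10 : CovD 1 gZ [(30541873152, 6109003776), (962072674304, 137438953472), (109957873664, 109957873664)] :=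
  covD_E kZ_eq (.n 2 (.n 2 (.n 2 (.l 0) (.l 0)) (.n 0 (.n 0 (.l 0) (.l 0)) (.l 0))) (.n 0 (.n 2 (.l 0) (.l 0)) (.n 2 (.l 0) (.l 0))))
    [(30541873152, 6109003776), (962072674304, 137438953472), (109957873664, 109957873664)] rfl (by decide +kernel)
theorem Z_c0_t11 : CovD 1 gZ [(30541873152, 6109003776), (962072674304, 137438953472), (329873620992, 109957873664)] :=
  covD_E kZ_eq (.n 0 (.n 2 (.n 2 (.l 0) (.l 0)) (.n 2 (.l 0) (.l 0))) (.n 2 (.n 2 (.l 0) (.l 0)) (.n 1 (.l 0) (.l 0))))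
    [(30541873152, 6109003776), (962072674304, 137438953472), (329873620992, 109957873664)] rfl (by decide +kernel)
end

mutual
theorem Z_c0_t12 : CovD 1 gZ [(30541873152, 6109003776), (962072674304, 137438953472), (659747241984, 219915747328)] :=
  covD_E kZ_eq (.n 0 (.n 2 (.n 2 (.n 2 (.l 0) (.l 0)) (.n 2 (.l 0) (.l 0))) (.n 2 (.n 2 (.l 0) (.l 0)) (.n 2 (.l 0) (.l 0)))) (.n 2 (.n 2 (.n 1 (.l 0) (.l 0)) (.n 2 (.l 0) (.l 0))) (.n 2 (.n 2 (.l 0) (.l 0)) (.n 2 (.l 0) (.l 0)))))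
    [(30541873152, 6109003776), (962072674304, 137438953472), (659747241984, 219915747328)] rfl (by decide +kernel)
theorem T_c0 : CovD 1 gT [(30541873152, 6109003776), (824633720832, 274877906944)] :=
  covD_E kT_eq (.n 0 (.n 1 (.n 1 (.l 0) (.l 0)) (.l 0)) (.n 1 (.l 0) (.l 0)))
    [(30541873152, 6109003776), (824633720832, 274877906944)] rfl (by decide +kernel)
end

theorem S_c0 : CovD 0 gS [(30541873152, 6109003776), (824633720832, 274877906944)] :=
  covD_E kS_eq (.n 0 (.n 1 (.n 1 (.l 0) (.l 0)) (.n 0 (.l 0) (.l 0))) (.n 1 (.l 0) (.n 1 (.n 0 (.l 0) (.l 0)) (.n 1 (.l 0) (.l 0)))))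
    [(30541873152, 6109003776), (824633720832, 274877906944)] rfl (by decide +kernel)

theorem Z_c0_t2 : CovD 1 gZ [(30541873152, 6109003776), (618475290624, 68719476736), (439831494656, 439831494656)] :=
  covD_split 2 (by decide +kernel) Z_c0_t3 Z_c0_t4

theorem Z_c0_t5 : CovD 1 gZ [(30541873152, 6109003776), (755914244096, 68719476736), (439831494656, 439831494656)] :=
  covD_split 2 (by decide +kernel) Z_c0_t6 Z_c0_t7

theorem Z_c0_t1 : CovD 1 gZ [(30541873152, 6109003776), (687194767360, 137438953472), (439831494656, 439831494656)] :=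
  covD_split 1 (by decide +kernel) Z_c0_t2 Z_c0_t5

theorem Z_c0_t9 : CovD 1 gZ [(30541873152, 6109003776), (962072674304, 137438953472), (219915747328, 219915747328)] :=
  covD_split 2 (by decide +kernel) Z_c0_t10 Z_c0_t11

theorem Z_c0_t8 : CovD 1 gZ [(30541873152, 6109003776), (962072674304, 137438953472), (439831494656, 439831494656)] :=
  covD_split 2 (by decide +kernel) Z_c0_t9 Z_c0_t12

theorem Z_c0 : CovD 1 gZ [(30541873152, 6109003776), (824633720832, 274877906944), (439831494656, 439831494656)] :=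
  covD_split 1 (by decide +kernel) Z_c0_t1 Z_c0_t8

end Pool.Agent.helper14.NS.Q30c
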