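import Pool.Agent.helper14.NS.Cert

/-!
Generated: table Q30c.
-/

namespace Pool.Agent.helper14.NS.Q30c

open Pool.Agent.helper63.NF Pool.Agent.helper4.NS

def tab : TD where
  strip := false
  bm := none
  ec := 30601641984
  bc := 824633720832
  H := [[[-14521728960, 21722897216, 153058240, -752651584], [-967791435904, -165985627648], [5678749510784]], [[3729862080, -780471872, -60403328], [258583582016, -108046188672]], [[-316863744, -435848640, 511539904], [-37619003264]], [[-103893312, 69381440], [1944049344]], [[33556608, -6691840]], [[-4416640]], [[276992]]]
  pol := some ⟨-903016873984, -16217796509696, 5872294035456, 31362867265536, [[-41971800320, -141742356736], [-2009507567232, 0]], [[772674957760, -100294421376], [36844927813120, 0]]⟩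
  a := [[[329539387392, 42522574848, -398739046400, 203009818624], [-4297921986560, -1267430719488]], [[142966128640, -20485373952, -114305204224, 81774706688], [769433862144, 3505121198080]], [[127255445504, -20621688832, -100122820608, 45306675200], [1107836731392, 2809717915648]], [[112864329728, -21525037056, -81305665536, 84459651072], [1025890910208, 1983828787200]], [[98088779776, -14719385600, -61650305024, 42196992000], [850505891840, 1232486531072]], [[82643648512, -7901020160, -35718889472, -6522863616], [554876272640, 630197977088]]]
  j := [-5634997092352, 9345848836096, 12094627905536, 13194139533312, 12644383719424, 10445360463872]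
  c := [879662989312, 769604452352, 604785082368, 494726545408, 439697276928, 329907175424]
  M := [[[[1097746612224, -6814826496, 14081523712], [-238906441728, 1324203311104], [4098303787008]], [[76561842176, 50133204992], [4272274604032]], [[23670358016, -95014420480], [1699559047168]], [[269925285888]], [[-415861571584]], [[320330072064]]], [[[1097134964736, 9861398528, 9790160896], [467508264960]], [[18894225408, 358088704], [546005712896]], [[-1074331648]], [[115736576]]], [[[1099648729088, 8596946944, 4358078464], [522066067456]], [[17544052736, 321454080], [549364760576]], [[-697696256]], [[74645504]]], [[[1100320342016, 8251375616, 6364463104], [516603379712]], [[16952066048, 439549952], [539299545088]], [[-500367360]], [[48824320]]], [[[1100929433600, 9220653056, 9566683136], [433192501248]], [[16615538688, 414842880], [536522981376]], [[-388694016]], [[32768000]]], [[[1100922945536, 8081113088, 5215813632], [373820424192]], [[16646602752, 561250304], [538128941056]], [[-357367808]], [[27918336]]]]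
  l0 := [[[3494415877440, 63470500288], [1135899795520]], [[1425269273024, 34574668928], [-11017836145472]], [[520567824576, -460736419520], [-19362664117504]], [[-573042968192, 156106481600], [-19357936073088]], [[3524496397568, 87677470464], [30180718178816]], [[-8439090649408, -987700352960], [-57842666463680]], [[21694513456448]], [[-33523823759040]], [[43802865453440]], [[-29162980271040]], [[16798281878272]], [[1840967172416]]]
  q0 := [[91511754304, 123042788800, 5858189184], [3288091267648, 4764684483200], [2942874476928]]
  t := [[[1941426274304, 693229977600, -1103454011392, -1068442058752], [-1752070946816, -14508005130240]], [[712749154304, -177886461952, -60436643840, 542793924608], [2460249227264, 17386817650688]], [[638197432320, -145881563136, 76597821440, 357519327232], [4346468302848, 18951331971072]], [[590810316800, -71503052800, 250793426944, 283025145856], [5296261365760, 21304458477568]], [[548878090240, 20329791488, 261308874752, -54651125760], [5615593848832, 14680289902592]], [[553363701760, 141687717888, 154872774656, -400604135424], [7550992908288, 15387257733120]]]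
  y := [7854421442560, 9262096973824, 10637560250368, 11964705144832, 13156558569472, 14200235622400]
  sc := [0, 0, 0, 0, 0, 0]
  L := [(0, 2), (0, 3), (1, 1), (2, 0)]
  Lt := [(0, 2), (0, 3), (1, 1)]
  far := 3
  x2 := 10775214161920
  B1 := 1099511627776
  C2 := 1436096814080
  f1 := 0
  f2 := 0
  f3 := 0
  is1 := 8796093022208
  s1 := 137438953472

end Pool.Agent.helper14.NS.Q30c
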